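import Pool.Agent.helper95.FI.SpecA

/-! # Row fi:DVU (MP_ad8ced_nt) -/

set_option autoImplicit false

namespace Pool.Agent.FI

theorem DVU (hFDU : FDU_stmt) : DVU_stmt := by
  rintro ⟨a, l⟩ m ⟨r, s⟩ ⟨w1, w2⟩ ⟨r', s'⟩ ⟨v1, v2⟩ ha hcop hz hz' hm hm' h1 h2
  have hz1 : r % 2 = 1 := hz.1
  simp only at ha
  change IsCoprime a l at hcop
  have e1 : r * w1 + 8 * s * w2 = a := congrArg Prod.fst h1
  have e2 : r * w2 + s * w1 = l := congrArg Prod.snd h1
  have f1 : r' * v1 + 8 * s' * v2 = a := congrArg Prod.fst h2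
  have f2 : r' * v2 + s' * v1 = l := congrArg Prod.snd h2
  have hNz : (N8 (r, s)) = r ^ 2 - 8 * s ^ 2 := rfl
  have hNz' : (N8 (r', s')) = r' ^ 2 - 8 * s' ^ 2 := rfl
  have hne : N8 (r, s) ≠ 0 := by
    rw [hNz]
    intro h
    have h3 : r ^ 2 % 2 = 1 := by
      rw [pow_two, Int.mul_emod, hz1]
      norm_num
    omega
  have hm0 : (m : ℤ) ≠ 0 := by
    intro h
    have : m = 0 := by exact_mod_cast h
    rw [this] at hm
    exact hne (Int.natAbs_eq_zero.1 hm)
  have hdz : (m : ℤ) ∣ N8 (r, s) := by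
    rw [← hm]
    exact Int.natAbs_dvd.2 dvd_rfl
  have hdz' : (m : ℤ) ∣ N8 (r', s') := by
    rw [← hm']
    exact Int.natAbs_dvd.2 dvd_rfl
  have hlm : IsCoprime (m : ℤ) l := by
    have h3 : IsCoprime (a ^ 2 - 8 * l ^ 2) l := by
      have h4 : IsCoprime (a ^ 2) l := hcop.pow_left
      have h5 : a ^ 2 - 8 * l ^ 2 = a ^ 2 + l * (-8 * l) := by ring
      rw [h5]
      exact h4.add_mul_left_left _
    refine IsCoprime.of_isCoprime_of_dvd_left h3 ?_
    have h6 : a ^ 2 - 8 * l ^ 2 = N8 (r, s) * (w1 ^ 2 - 8 * w2 ^ 2) := by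
      rw [hNz, ← e1, ← e2]
      ring
    rw [h6]
    exact hdz.mul_right _
  have g1 : (m : ℤ) ∣ l * r - a * s := by
    have : l * r - a * s = N8 (r, s) * w2 := by
      rw [hNz, ← e1, ← e2]
      ring
    rw [this]
    exact hdz.mul_right _
  have g2 : (m : ℤ) ∣ a * r - 8 * l * s := by
    have : a * r - 8 * l * s = N8 (r, s) * w1 := by
      rw [hNz, ← e1, ← e2]
      ring
    rw [this]
    exact hdz.mul_right _
  have g3 : (m : ℤ) ∣ l * r' - a * s' := by
    have : l * r' - a * s' = N8 (r', s') * v2 := by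
      rw [hNz', ← f1, ← f2]
      ring
    rw [this]
    exact hdz'.mul_right _
  have k1 : (m : ℤ) ∣ s' * r - r' * s := by
    refine hlm.dvd_of_dvd_mul_left ?_
    have : l * (s' * r - r' * s) = s' * (l * r - a * s) - s * (l * r' - a * s') := by ring
    rw [this]
    exact (g1.mul_left _).sub (g3.mul_left _)
  have k2 : (m : ℤ) ∣ r' * r - 8 * s' * s := by
    refine hlm.dvd_of_dvd_mul_left ?_
    have : l * (r' * r - 8 * s' * s) = r * (l * r' - a * s') + s' * (a * r - 8 * l * s) := by ring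
    rw [this]
    exact (g3.mul_left _).add (g2.mul_left _)
  obtain ⟨q, hq⟩ := k1
  obtain ⟨p, hp⟩ := k2
  have hprod : (N8 (r', s')) * (N8 (r, s)) = m ^ 2 * (p ^ 2 - 8 * q ^ 2) := by
    have : (m : ℤ) ^ 2 * (p ^ 2 - 8 * q ^ 2) = (m * p) ^ 2 - 8 * (m * q) ^ 2 := by ring
    rw [this, ← hp, ← hq, hNz, hNz']
    ring
  have hunit : (p ^ 2 - 8 * q ^ 2).natAbs = 1 := by
    have h3 := congrArg Int.natAbs hprod
    rw [Int.natAbs_mul, Int.natAbs_mul] at h3
    have h4 : (N8 (r', s')).natAbs = m := hm'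
    have h5 : (N8 (r, s)).natAbs = m := hm
    rw [h4, h5, Int.natAbs_pow, Int.natAbs_natCast, ← pow_two] at h3
    have h6 : 0 < m ^ 2 := by
      have : 0 < m := Nat.pos_of_ne_zero (by exact_mod_cast hm0)
      positivity
    exact (Nat.eq_of_mul_eq_mul_left h6 (by rw [mul_one]; exact h3)).symm
  obtain ⟨σ, hσ, hσm⟩ : ∃ σ : ℤ, σ * σ = 1 ∧ N8 (r, s) = σ * m := by
    rcases Int.natAbs_eq (N8 (r, s)) with h | h
    · refine ⟨1, by norm_num, ?_⟩
      rw [one_mul, ← hm]
      exact h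
    · refine ⟨-1, by norm_num, ?_⟩
      rw [neg_one_mul, ← hm]
      exact h
  have hr' : r' = σ * p * r + 8 * (σ * q) * s := by
    have h3 : (m : ℤ) * r' = m * (σ * p * r + 8 * (σ * q) * s) := by
      have h4 : (m : ℤ) * (σ * p * r + 8 * (σ * q) * s) = σ * ((m * p) * r + 8 * (m * q) * s) := by ring
      have h5 : (m : ℤ) * p * r + 8 * (m * q) * s = N8 (r, s) * r' := by
        rw [← hp, ← hq, hNz]
        ring
      rw [h4, h5, hσm]
      linear_combination (-(m : ℤ) * r') * hσ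
    exact mul_left_cancel₀ hm0 h3
  have hs' : s' = σ * p * s + σ * q * r := by
    have h3 : (m : ℤ) * s' = m * (σ * p * s + σ * q * r) := by
      have h4 : (m : ℤ) * (σ * p * s + σ * q * r) = σ * ((m * p) * s + (m * q) * r) := by ring
      have h5 : (m : ℤ) * p * s + (m * q) * r = N8 (r, s) * s' := by
        rw [← hp, ← hq, hNz]
        ring
      rw [h4, h5, hσm]
      linear_combination (-(m : ℤ) * s') * hσ
    exact mul_left_cancel₀ hm0 h3
  have hmul : mul8 (σ * p, σ * q) (r, s) = (r', s') := by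
    unfold mul8
    rw [hr', hs']
  have hu := hFDU (r, s) (σ * p, σ * q) hz (by
    unfold nn N8
    have h3 : (σ * p) ^ 2 - 8 * (σ * q) ^ 2 = p ^ 2 - 8 * q ^ 2 := by
      linear_combination (p ^ 2 - 8 * q ^ 2) * hσ
    rw [h3]
    exact hunit) (by rw [hmul]; exact hz')
  rw [hu] at hmul
  have hzz : r = r' ∧ s = s' := by
    unfold mul8 at hmul
    simp only [Prod.mk.injEq] at hmul
    constructor
    · linarith [hmul.1]
    · linarith [hmul.2]
  refine ⟨Prod.ext hzz.1 hzz.2, ?_⟩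
  rw [← hzz.1, ← hzz.2] at f1 f2
  refine Prod.ext ?_ ?_
  · apply mul_left_cancel₀ hne
    change N8 (r, s) * w1 = N8 (r, s) * v1
    rw [hNz]
    linear_combination r * (e1 - f1) - 8 * s * (e2 - f2)
  · apply mul_left_cancel₀ hne
    change N8 (r, s) * w2 = N8 (r, s) * v2
    rw [hNz]
    linear_combination r * (e2 - f2) - s * (e1 - f1)

end Pool.Agent.FI
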