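import Pool.Agent.helper36.HK.SpecN

/-!
# Project fi, row MTA: the main term with asymptotic constant (sieve over `l`)
-/

set_option autoImplicit false

open Finset

noncomputable section

namespace Pool.Agent.FI

private lemma MTA_lep : 1 ≤ lep := by
  unfold lep
  rw [Real.le_log_iff_exp_le (by positivity)]
  have h1 := Real.exp_one_lt_d9
  have h2 := Real.sqrt_nonneg (8 : ℝ)
  linarith

private lemma MTA_ch8 (p : ℕ) : -1 ≤ ch8 p ∧ ch8 p ≤ 1 := by
  unfold ch8; split_ifs <;> norm_num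

private lemma MTA_gg {p : ℕ} (hp : p.Prime) : 1 < (p : ℝ) - ch8 p ∧ (p : ℝ) ≤ 2 * (p - ch8 p) := by
  rcases eq_or_ne p 2 with rfl | h
  · have : ch8 2 = 0 := by unfold ch8; norm_num
    rw [this]; norm_num
  · have h3 : 3 ≤ p := by have := hp.two_le; omega
    have h3' : (3 : ℝ) ≤ p := by exact_mod_cast h3
    have := MTA_ch8 p
    constructor <;> linarith

/-- divisibility indicator -/
private def MTA_h (p : ℕ) (z : ℤ × ℤ) : ℝ := if (p : ℤ) ∣ z.2 then 1 else 0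

private lemma MTA_dvd (D : Finset ℕ) (hD : ∀ p ∈ D, p.Prime) (z : ℤ × ℤ) :
    ∏ p ∈ D, MTA_h p z = if ((∏ p ∈ D, p : ℕ) : ℤ) ∣ z.2 then 1 else 0 := by
  unfold MTA_h
  rw [Finset.prod_ite_zero]
  simp only [Finset.prod_const_one]
  have : (∀ p ∈ D, (p : ℤ) ∣ z.2) ↔ ((∏ p ∈ D, p : ℕ) : ℤ) ∣ z.2 := by
    constructor
    · intro h
      rw [Int.natCast_dvd]
      exact Finset.prod_primes_dvd _ (fun p hp => (hD p hp).prime)
        (fun p hp => Int.natCast_dvd.mp (h p hp))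
    · intro h p hp
      exact (Int.natCast_dvd_natCast.mpr (Finset.dvd_prod_of_mem _ hp)).trans h
  simp only [this]

private lemma MTA_sqf (D : Finset ℕ) (hD : ∀ p ∈ D, p.Prime) : Squarefree (∏ p ∈ D, p) := by
  refine Finset.squarefree_prod_of_pairwise_isCoprime ?_ (fun p hp => (hD p hp).prime.squarefree)
  intro p hp q hq hpq
  simp only [Function.onFun, ← Nat.coprime_iff_isRelPrime]
  exact (Nat.coprime_primes (hD p hp) (hD q hq)).mpr hpq

private def MTA_w (p : ℕ) : ℝ := if p.Prime then (p : ℝ) * gg p else 0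

private lemma MTA_gg_pos {p : ℕ} (hp : p.Prime) : 0 < gg p ∧ gg p < 1 ∧ (p : ℝ) * gg p ≤ 2 := by
  obtain ⟨h1, h2⟩ := MTA_gg hp
  have h0 : 0 < (p : ℝ) - ch8 p := by linarith
  unfold gg
  refine ⟨by positivity, ?_, ?_⟩
  · rw [div_lt_one h0]; exact h1
  · rw [mul_one_div, div_le_iff₀ h0]; exact h2

private lemma MTA_w0 (p : ℕ) : 0 ≤ MTA_w p := by
  unfold MTA_w
  split_ifs with h
  · have := (MTA_gg_pos h).1
    positivity
  · exact le_refl _

private lemma MTA_w2 (p : ℕ) : MTA_w p ≤ 2 := by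
  unfold MTA_w
  split_ifs with h
  · exact (MTA_gg_pos h).2.2
  · norm_num

private lemma MTA_wp (p : ℕ) (h : p.Prime) : MTA_w p < p := by
  unfold MTA_w
  rw [if_pos h]
  have h1 := (MTA_gg_pos h).2.1
  have h2 : (0 : ℝ) < p := by exact_mod_cast h.pos
  nlinarith

private lemma MTA_wd {p : ℕ} (h : p.Prime) : MTA_w p / p = gg p := by
  unfold MTA_w
  rw [if_pos h]
  have h2 : (p : ℝ) ≠ 0 := by exact_mod_cast h.ne_zero
  field_simp

/-- the upper bound of the local factors -/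
private lemma MTA_ratio (p : ℕ) (hp : p.Prime) (h3 : 3 ≤ p) :
    0 ≤ (1 - 1 / (p : ℝ))⁻¹ * (1 - gg p) ∧
      (1 - 1 / (p : ℝ))⁻¹ * (1 - gg p) ≤ (p : ℝ) ^ 2 / ((p : ℝ) ^ 2 - 1) := by
  have h1 : (3 : ℝ) ≤ p := by exact_mod_cast h3
  have h5 : 1 - 1 / (p : ℝ) = ((p : ℝ) - 1) / p := by
    have : (p : ℝ) ≠ 0 := by linarith
    field_simp
  have h6 : (0 : ℝ) < (p : ℝ) - 1 := by linarith
  have hg1 : gg p < 1 := (MTA_gg_pos hp).2.1
  constructor
  · rw [h5, inv_div]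
    have : (0 : ℝ) ≤ p / ((p : ℝ) - 1) := by positivity
    exact mul_nonneg this (by linarith)
  · have hg : 1 / ((p : ℝ) + 1) ≤ gg p := by
      have hc := MTA_ch8 p
      unfold gg
      apply one_div_le_one_div_of_le
      · linarith
      · linarith
    have h7 : (1 - 1 / (p : ℝ))⁻¹ * (1 - gg p) ≤ (1 - 1 / (p : ℝ))⁻¹ * (1 - 1 / ((p : ℝ) + 1)) := by
      apply mul_le_mul_of_nonneg_left (by linarith)
      rw [h5, inv_div]
      positivity
    refine h7.trans (le_of_eq ?_)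
    rw [h5, inv_div]
    have h8 : (p : ℝ) + 1 ≠ 0 := by linarith
    have h9 : (p : ℝ) - 1 ≠ 0 := by linarith
    have h10 : (p : ℝ) ^ 2 - 1 ≠ 0 := by nlinarith
    field_simp
    ring

private lemma MTA_up (N : ℕ) (hN : 2 ≤ N) :
    ∏ p ∈ range (N + 1), (if p.Prime then (1 - 1 / (p : ℝ))⁻¹ * (1 - gg p) else 1)
      ≤ 3 * N / (2 * (N + 1)) := by
  induction N, hN using Nat.le_induction with
  | base =>
    rw [Finset.prod_range_succ, Finset.prod_range_succ, Finset.prod_range_succ, Finset.prod_range_zero]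
    rw [if_neg (by norm_num), if_neg (by norm_num), if_pos (by norm_num)]
    have : gg 2 = 1 / 2 := by unfold gg ch8; norm_num
    rw [this]
    norm_num
  | succ N hN ih =>
    rw [Finset.prod_range_succ]
    have hN' : (2 : ℝ) ≤ N := by exact_mod_cast hN
    have h0 : (0 : ℝ) ≤ 3 * N / (2 * (N + 1)) := by positivity
    have e1 : 3 * (N : ℝ) / (2 * (N + 1)) * (((N : ℝ) + 1) ^ 2 / (((N : ℝ) + 1) ^ 2 - 1))
        = 3 * ((N + 1 : ℕ) : ℝ) / (2 * (((N + 1 : ℕ) : ℝ) + 1)) := by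
      push_cast
      have h2 : (N : ℝ) + 1 ≠ 0 := by linarith
      have h3 : ((N : ℝ) + 1) ^ 2 - 1 ≠ 0 := by nlinarith
      have h4 : (N : ℝ) + 1 + 1 ≠ 0 := by linarith
      rw [div_mul_div_comm, div_eq_div_iff (mul_ne_zero (mul_ne_zero two_ne_zero h2) h3)
        (mul_ne_zero two_ne_zero h4)]
      ring
    rw [← e1]
    split_ifs with hp
    · obtain ⟨r1, r2⟩ := MTA_ratio (N + 1) hp (by omega)
      refine mul_le_mul ih ?_ r1 h0
      have e : (((N + 1 : ℕ) : ℝ)) = (N : ℝ) + 1 := by push_cast; ring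
      rw [e] at r2
      rw [e]
      exact r2
    · refine mul_le_mul ih ?_ zero_le_one h0
      rw [one_le_div (by nlinarith)]
      linarith

private lemma MTA_kapP (r : ℕ) : kap r * ∏ p ∈ Nat.primesLE (Zr r), (1 - gg p) ≤ 2 := by
  have h2 : 2 ≤ Zr r := by
    unfold Zr
    calc 2 = 2 ^ 1 := by norm_num
      _ ≤ 2 ^ 2 ^ r := Nat.pow_le_pow_right (by norm_num) Nat.one_le_two_pow
  have h1 := MTA_up (Zr r) h2
  have e1 : (Icc 1 (Zr r)).filter Nat.Prime = (range (Zr r + 1)).filter Nat.Prime := by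
    ext p
    rw [mem_filter, mem_filter, mem_Icc, mem_range]
    constructor
    · rintro ⟨⟨a, b⟩, c⟩
      exact ⟨by omega, c⟩
    · rintro ⟨a, c⟩
      have := c.one_lt
      exact ⟨⟨by omega, by omega⟩, c⟩
  have e2 : Nat.primesLE (Zr r) = (range (Zr r + 1)).filter Nat.Prime := by
    ext p
    rw [Nat.mem_primesLE, mem_filter, mem_range]
    constructor
    · rintro ⟨a, c⟩
      exact ⟨by omega, c⟩
    · rintro ⟨a, c⟩
      exact ⟨by omega, c⟩
  unfold kap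
  rw [e1, e2, ← Finset.prod_mul_distrib, Finset.prod_filter]
  refine h1.trans ?_
  have h3 : (0 : ℝ) ≤ (Zr r : ℝ) := Nat.cast_nonneg _
  rw [div_le_iff₀ (by positivity)]
  linarith

private lemma MTA_nu (r : ℕ) (z : ℤ × ℤ) :
    kap r * ∏ p ∈ Nat.primesLE (Zr r), (1 - MTA_h p z) = nu r z.2 := by
  classical
  unfold nu
  by_cases hz : RghI r z.2
  · rw [if_pos hz]
    have : ∏ p ∈ Nat.primesLE (Zr r), (1 - MTA_h p z) = 1 := by
      refine Finset.prod_eq_one fun p hp => ?_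
      obtain ⟨hp1, hp2⟩ := Nat.mem_primesLE.mp hp
      unfold MTA_h
      rw [if_neg (hz p hp2 hp1)]
      ring
    rw [this, mul_one]
  · rw [if_neg hz]
    have hz' : ∃ p : ℕ, p.Prime ∧ p ≤ Zr r ∧ (p : ℤ) ∣ z.2 := by
      unfold RghI at hz
      push Not at hz
      exact hz
    obtain ⟨p, hp1, hp2, hp3⟩ := hz'
    have : ∏ p ∈ Nat.primesLE (Zr r), (1 - MTA_h p z) = 0 := by
      refine Finset.prod_eq_zero (Nat.mem_primesLE.mpr ⟨hp2, hp1⟩) ?_
      unfold MTA_h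
      rw [if_pos hp3]
      ring
    rw [this, mul_zero]

/-- the trivial bound for large `d` -/
private lemma MTA_triv (x A d : ℕ) (hx : 2 ≤ x) (hAx : A ≤ x) (hd : 1 ≤ d) :
    ∑ ζ ∈ PZ x A with ((nn ζ).Prime ∧ (d : ℤ) ∣ ζ.2), Real.log (nn ζ) ≤ 14 * x ^ 2 * Real.log x / d := by
  classical
  have hx0 : (0 : ℝ) < x := by exact_mod_cast (by omega : 0 < x)
  have hx2 : (2 : ℝ) ≤ x := by exact_mod_cast hx
  have hd0 : (0 : ℝ) < d := by exact_mod_cast hd
  have hL : 0 ≤ Real.log x := Real.log_natCast_nonneg _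
  have hlog : ∀ ζ ∈ (PZ x A).filter (fun ζ => (nn ζ).Prime ∧ (d : ℤ) ∣ ζ.2),
      Real.log (nn ζ) ≤ 7 * Real.log x := by
    intro ζ hζ
    have h1 := (mem_filter.mp hζ).1
    unfold PZ at h1
    obtain ⟨h2, -⟩ := mem_filter.mp h1
    rw [mem_product, mem_Icc, mem_Ioc] at h2
    obtain ⟨⟨a1, a2⟩, a3, a4⟩ := h2
    have hAx' : (A : ℤ) ≤ x := by exact_mod_cast hAx
    have hN : nn ζ ≤ 32 * x ^ 2 := by
      unfold nn N8
      zify
      rw [abs_le]
      constructor <;> nlinarith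
    have hp : 0 < nn ζ := ((mem_filter.mp hζ).2.1).pos
    calc Real.log (nn ζ) ≤ Real.log ((32 * x ^ 2 : ℕ) : ℝ) :=
          Real.log_le_log (by exact_mod_cast hp) (by exact_mod_cast hN)
      _ = 5 * Real.log 2 + 2 * Real.log x := by
          push_cast
          rw [Real.log_mul (by norm_num) (by positivity), Real.log_pow,
            show (32 : ℝ) = 2 ^ 5 by norm_num, Real.log_pow]
          push_cast; ring
      _ ≤ 7 * Real.log x := by
          have := Real.log_le_log (by norm_num) hx2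
          linarith
  have hcard : (((PZ x A).filter (fun ζ => (nn ζ).Prime ∧ (d : ℤ) ∣ ζ.2)).card : ℝ) ≤
      x * (2 * x / d) := by
    have h1 : (PZ x A).filter (fun ζ => (nn ζ).Prime ∧ (d : ℤ) ∣ ζ.2) ⊆
        (Icc (1 : ℤ) A) ×ˢ (((Ioc 0 (2 * x)).filter (fun n => d ∣ n)).image (fun n : ℕ => (n : ℤ))) := by
      intro ζ hζ
      have h1 := (mem_filter.mp hζ).1
      unfold PZ at h1
      obtain ⟨h2, -⟩ := mem_filter.mp h1
      rw [mem_product, mem_Icc, mem_Ioc] at h2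
      obtain ⟨⟨a1, a2⟩, a3, a4⟩ := h2
      rw [mem_product, mem_Icc, mem_image]
      refine ⟨⟨a1, a2⟩, ζ.2.toNat, ?_, ?_⟩
      · rw [mem_filter, mem_Ioc]
        refine ⟨⟨by omega, by omega⟩, ?_⟩
        have h3 := (mem_filter.mp hζ).2.2
        rw [← Int.natCast_dvd_natCast, Int.toNat_of_nonneg (by omega)]
        exact h3
      · exact Int.toNat_of_nonneg (by omega)
    have h2 := card_le_card h1
    rw [card_product, Int.card_Icc] at h2
    have h3 := h2.trans (Nat.mul_le_mul_left _ card_image_le)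
    rw [Nat.Ioc_filter_dvd_card_eq_div] at h3
    have h4 : ((A : ℤ) + 1 - 1).toNat = A := by simp
    rw [h4] at h3
    have h5 : (((PZ x A).filter (fun ζ => (nn ζ).Prime ∧ (d : ℤ) ∣ ζ.2)).card : ℝ) ≤
        A * ((2 * x / d : ℕ) : ℝ) := by exact_mod_cast h3
    refine h5.trans ?_
    have h6 : ((2 * x / d : ℕ) : ℝ) ≤ 2 * x / d := by
      have := @Nat.cast_div_le ℝ _ _ _ (2 * x) d
      push_cast at this
      exact this
    have h7 : (A : ℝ) ≤ x := by exact_mod_cast hAx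
    exact mul_le_mul h7 h6 (Nat.cast_nonneg _) hx0.le
  calc ∑ ζ ∈ PZ x A with ((nn ζ).Prime ∧ (d : ℤ) ∣ ζ.2), Real.log (nn ζ)
      ≤ (((PZ x A).filter (fun ζ => (nn ζ).Prime ∧ (d : ℤ) ∣ ζ.2)).card : ℝ) * (7 * Real.log x) := by
        have := Finset.sum_le_card_nsmul _ _ _ hlog
        rwa [nsmul_eq_mul] at this
    _ ≤ (x * (2 * x / d)) * (7 * Real.log x) := mul_le_mul_of_nonneg_right hcard (by positivity)
    _ = 14 * x ^ 2 * Real.log x / d := by ring

/-- the large parameter -/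
private lemma MTA_lim (Ck ε : ℝ) (C₅ : ℕ) : ∃ x₀ : ℕ, ∀ x : ℕ, x₀ ≤ x →
    2 ≤ x ∧ 14 ≤ Real.log x ∧ 2 / ε ≤ Real.log x ∧
      Ck * (2 * C₅ * Real.log (Real.log x)) ≤ Real.log x := by
  have h1 : ∀ᶠ L : ℝ in Filter.atTop, Ck * (2 * C₅ * Real.log L) ≤ L := by
    have h2 := (Real.isLittleO_log_id_atTop.const_mul_left (Ck * (2 * C₅))).bound (c := 1) one_pos
    filter_upwards [h2, Filter.eventually_ge_atTop 0] with L hL hL0
    rw [one_mul, id, Real.norm_eq_abs, Real.norm_eq_abs, abs_of_nonneg hL0] at hL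
    have := le_abs_self (Ck * (2 * C₅) * Real.log L)
    linarith
  have h3 : ∀ᶠ x : ℕ in Filter.atTop, (2 ≤ x) ∧ 14 ≤ Real.log x ∧ 2 / ε ≤ Real.log x ∧
      Ck * (2 * C₅ * Real.log (Real.log x)) ≤ Real.log x := by
    have ht : Filter.Tendsto (fun x : ℕ => Real.log x) Filter.atTop Filter.atTop :=
      Real.tendsto_log_atTop.comp tendsto_natCast_atTop_atTop
    filter_upwards [Filter.eventually_ge_atTop 2, ht.eventually (Filter.eventually_ge_atTop 14),
      ht.eventually (Filter.eventually_ge_atTop (2 / ε)), ht.eventually h1] with x a b c e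
    exact ⟨a, b, c, e⟩
  obtain ⟨x₀, hx₀⟩ := Filter.eventually_atTop.mp h3
  exact ⟨x₀, hx₀⟩

/-- **MTA** (project fi) -/
theorem MTA (hFL2 : FL2_stmt) (hGBX : GBX_stmt) (hKPR : KPR_stmt) (hKAP : KAP_stmt) : MTA_stmt := by
  classical
  obtain ⟨c, hFL⟩ := hFL2
  obtain ⟨Ck, hCk, hK⟩ := hKAP
  have hlep := MTA_lep
  have hlep0 : 0 < lep := by linarith
  intro ε hε C₅ K
  obtain ⟨b, hb⟩ := exists_pow_lt_of_lt_one (show (0 : ℝ) < ε / 12 by positivity)
    (show (1 / 4 : ℝ) < 1 by norm_num)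
  set B₁ : ℕ := 2 * C₅ * (c * (b + 1)) + K + 2 with hB₁
  obtain ⟨x₁, hG⟩ := hGBX (B₁ + 3)
  obtain ⟨x₂, hx₂⟩ := MTA_lim Ck ε C₅
  refine ⟨max x₁ x₂, ?_⟩
  intro x hx r _ hr2 A hA hAx
  obtain ⟨a1, a2, a3, a5⟩ := hx₂ x ((le_max_right _ _).trans hx)
  have hGx := hG x ((le_max_left _ _).trans hx)
  set L := Real.log x with hL
  have hL0 : 0 < L := by linarith
  have hL1 : 1 ≤ L := by linarith
  have hx0 : (0 : ℝ) < x := by exact_mod_cast (by omega : 0 < x)
  have hZ0 : (0 : ℝ) < Zr r := by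
    unfold Zr; positivity
  have hkap1 : 1 ≤ kap r := (hK r).1
  have hkapL : kap r ≤ L := by
    refine (hK r).2.trans (le_trans ?_ a5)
    refine mul_le_mul_of_nonneg_left ?_ hCk.le
    calc Real.log (Zr r) ≤ Real.log (L ^ (2 * C₅)) := Real.log_le_log hZ0 hr2
      _ = 2 * C₅ * Real.log L := by rw [Real.log_pow]; push_cast; ring
  have hA0 : (0 : ℝ) < A := lt_of_lt_of_le (by positivity) hA
  have hA1 : 1 ≤ A := by
    have : 0 < A := by exact_mod_cast hA0
    omega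
  have hAxR : (A : ℝ) ≤ x := by exact_mod_cast hAx
  set E₁ : ℝ := x ^ 2 / L ^ B₁ with hE₁
  have hE₁0 : 0 < E₁ := by positivity
  have hs8 : √8 ≤ (3 : ℝ) := by
    rw [Real.sqrt_le_left (by norm_num)]
    norm_num
  have hs80 : (0 : ℝ) < √8 := Real.sqrt_pos.mpr (by norm_num)
  set M : ℝ := √8 / lep * (A * x) with hM
  have hM0 : 0 < M := by positivity
  have hM3 : M ≤ 3 * (A * x) := by
    rw [hM]
    refine mul_le_mul_of_nonneg_right ?_ (by positivity)
    rw [div_le_iff₀ hlep0]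
    nlinarith
  have hE3 : (x : ℝ) ^ 2 / L ^ (B₁ + 3) = E₁ / L ^ 3 := by
    rw [hE₁, pow_add, div_div]
  -- the density condition
  have key : ∀ D ⊆ Nat.primesLE (Zr r),
      |∑ ζ ∈ PZ x A with ((nn ζ).Prime ∧ (((∏ p ∈ D, p : ℕ) : ℤ)) ∣ ζ.2), Real.log (nn ζ)
      - (∏ p ∈ D, gg p) * M| ≤ E₁ / L := by
    intro D hD
    have hDp : ∀ p ∈ D, p.Prime := fun p hp => (Nat.mem_primesLE.mp (hD hp)).2
    have hd1 : 1 ≤ ∏ p ∈ D, p := Finset.prod_pos fun p hp => (hDp p hp).pos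
    by_cases hd : ((∏ p ∈ D, p : ℕ) : ℝ) ≤ L ^ (B₁ + 3)
    · have g := hGx (∏ p ∈ D, p) (MTA_sqf D hDp) hd A hA1 hAx
      rw [Nat.primeFactors_prod hDp, hE3] at g
      refine g.trans ?_
      refine div_le_div_of_nonneg_left hE₁0.le hL0 ?_
      calc L = L ^ 1 := (pow_one L).symm
        _ ≤ L ^ 3 := pow_le_pow_right₀ hL1 (by norm_num)
    · push Not at hd
      have hd0 : (0 : ℝ) < ((∏ p ∈ D, p : ℕ) : ℝ) := by exact_mod_cast hd1
      have g1 : ∑ ζ ∈ PZ x A with ((nn ζ).Prime ∧ (((∏ p ∈ D, p : ℕ) : ℤ)) ∣ ζ.2), Real.log (nn ζ)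
          ≤ E₁ / L := by
        refine (MTA_triv x A (∏ p ∈ D, p) a1 hAx hd1).trans ?_
        calc 14 * x ^ 2 * L / ((∏ p ∈ D, p : ℕ) : ℝ) ≤ L * x ^ 2 * L / L ^ (B₁ + 3) := by
              refine div_le_div₀ (by positivity) ?_ (by positivity) hd.le
              exact mul_le_mul_of_nonneg_right (mul_le_mul_of_nonneg_right a2 (by positivity)) hL0.le
          _ = L * L * (x ^ 2 / L ^ (B₁ + 3)) := by ring
          _ = E₁ / L := by rw [hE3]; field_simp
      have g0 : 0 ≤ ∑ ζ ∈ PZ x A with ((nn ζ).Prime ∧ (((∏ p ∈ D, p : ℕ) : ℤ)) ∣ ζ.2),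
          Real.log (nn ζ) :=
        Finset.sum_nonneg fun z _ => Real.log_natCast_nonneg _
      have g2 : (∏ p ∈ D, gg p) * M ≤ E₁ / L := by
        have e1 := ((hKPR r).2 D hD).1
        have e2 : (∏ p ∈ D, (p : ℝ)) = ((∏ p ∈ D, p : ℕ) : ℝ) := by push_cast; rfl
        rw [e2] at e1
        have e3 : M ≤ L * x ^ 2 := by
          have : (A : ℝ) * x ≤ x ^ 2 := by nlinarith
          nlinarith [sq_nonneg (x : ℝ)]
        have e4 : 0 ≤ ∏ p ∈ D, gg p := Finset.prod_nonneg fun p hp => (MTA_gg_pos (hDp p hp)).1.le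
        calc (∏ p ∈ D, gg p) * M ≤ (kap r / ((∏ p ∈ D, p : ℕ) : ℝ)) * (L * x ^ 2) :=
              mul_le_mul e1 e3 hM0.le (by positivity)
          _ ≤ (L / L ^ (B₁ + 3)) * (L * x ^ 2) := by
              refine mul_le_mul_of_nonneg_right ?_ (by positivity)
              exact div_le_div₀ hL0.le hkapL (by positivity) hd.le
          _ = L * L * (x ^ 2 / L ^ (B₁ + 3)) := by ring
          _ = E₁ / L := by rw [hE3]; field_simp
      have g3 : 0 ≤ (∏ p ∈ D, gg p) * M :=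
        mul_nonneg (Finset.prod_nonneg fun p hp => (MTA_gg_pos (hDp p hp)).1.le) hM0.le
      rw [abs_le]
      constructor <;> linarith
  set S : Finset (ℤ × ℤ) := {ζ ∈ PZ x A | (nn ζ).Prime} with hS
  have hSd : ∀ D ⊆ Nat.primesLE (Zr r),
      ∑ ζ ∈ PZ x A with ((nn ζ).Prime ∧ (((∏ p ∈ D, p : ℕ) : ℤ)) ∣ ζ.2), Real.log (nn ζ)
        = ∑ z ∈ S, Real.log (nn z) * ∏ p ∈ D, MTA_h p z := by
    intro D hD
    have hDp : ∀ p ∈ D, p.Prime := fun p hp => (Nat.mem_primesLE.mp (hD hp)).2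
    simp only [MTA_dvd D hDp, mul_ite, mul_one, mul_zero]
    rw [← Finset.sum_filter, hS, Finset.filter_filter]
  have hmain := hFL b r (ℤ × ℤ) S (fun z => Real.log (nn z) / E₁) MTA_h
    (M / E₁) MTA_w ?_ ?_ ?_ ?_ MTA_w0 MTA_w2 MTA_wp ?_
  · -- conclusion
    obtain ⟨m1, m2⟩ := hmain
    have s1 : ∏ p ∈ Nat.primesLE (Zr r), (1 - MTA_w p / p) = ∏ p ∈ Nat.primesLE (Zr r), (1 - gg p) :=
      Finset.prod_congr rfl fun p hp => by rw [MTA_wd (Nat.mem_primesLE.mp hp).2]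
    rw [s1] at m1 m2
    set T := ∑ z ∈ S, Real.log (nn z) * ∏ p ∈ Nat.primesLE (Zr r), (1 - MTA_h p z) with hT
    have s2 : ∑ z ∈ S, Real.log (nn z) / E₁ * ∏ p ∈ Nat.primesLE (Zr r), (1 - MTA_h p z)
        = T / E₁ := by
      rw [hT, Finset.sum_div]
      exact Finset.sum_congr rfl fun z _ => by ring
    rw [s2] at m1 m2
    have s3 : ∑ ζ ∈ PZ x A, nu r ζ.2 * (if (nn ζ).Prime then Real.log (nn ζ) else 0)
        = kap r * T := by
      rw [hT, hS, Finset.mul_sum, Finset.sum_filter]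
      refine Finset.sum_congr rfl fun z _ => ?_
      rw [← MTA_nu r z]
      split_ifs
      · ring
      · ring
    rw [s3]
    set P := ∏ p ∈ Nat.primesLE (Zr r), (1 - gg p) with hP
    have hPk : kap r * P ≤ 2 := MTA_kapP r
    have hPk0 : 0 ≤ kap r * P := by
      have := (hKPR r).1
      rw [← hP] at this
      linarith
    rw [le_div_iff₀ hE₁0] at m1
    rw [div_le_iff₀ hE₁0] at m2
    have s6 : ((1 - (1 / 4 : ℝ) ^ b) * (M / E₁) * P - (Zr r : ℝ) ^ (c * (b + 1))) * E₁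
        = (1 - (1 / 4 : ℝ) ^ b) * M * P - (Zr r : ℝ) ^ (c * (b + 1)) * E₁ := by
      field_simp
    have s6' : ((1 + (1 / 4 : ℝ) ^ b) * (M / E₁) * P + (Zr r : ℝ) ^ (c * (b + 1))) * E₁
        = (1 + (1 / 4 : ℝ) ^ b) * M * P + (Zr r : ℝ) ^ (c * (b + 1)) * E₁ := by
      field_simp
    rw [s6] at m1
    rw [s6'] at m2
    have k1 := mul_le_mul_of_nonneg_left m1 (by linarith : 0 ≤ kap r)
    have k2 := mul_le_mul_of_nonneg_left m2 (by linarith : 0 ≤ kap r)
    have s8 : kap r * ((Zr r : ℝ) ^ (c * (b + 1)) * E₁) ≤ ε / 2 * (A * x) := by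
      calc kap r * ((Zr r : ℝ) ^ (c * (b + 1)) * E₁)
          = kap r * (Zr r : ℝ) ^ (c * (b + 1)) * E₁ := by ring
        _ ≤ L * (L ^ (2 * C₅)) ^ (c * (b + 1)) * E₁ := by
            refine mul_le_mul_of_nonneg_right ?_ hE₁0.le
            refine mul_le_mul hkapL ?_ (by positivity) hL0.le
            exact pow_le_pow_left₀ hZ0.le hr2 _
        _ = x ^ 2 / L ^ (K + 1) := by
            rw [hE₁, ← pow_mul, hB₁]
            rw [show 2 * C₅ * (c * (b + 1)) + K + 2 = 2 * C₅ * (c * (b + 1)) + ((K + 1) + 1) by ring,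
              pow_add, pow_succ L (K + 1)]
            field_simp
        _ = (x / L ^ K) * (x / L) := by
            rw [pow_succ L K, div_mul_div_comm, sq]
        _ ≤ A * (x * (ε / 2)) := by
            refine mul_le_mul hA ?_ (by positivity) hA0.le
            rw [div_le_iff₀ hL0]
            have e1 : 1 ≤ ε / 2 * L := by
              rw [div_le_iff₀ hε] at a3
              linarith
            nlinarith
        _ = ε / 2 * (A * x) := by ring
    have s9 : (1 / 4 : ℝ) ^ b * M * (kap r * P) ≤ ε / 2 * (A * x) := by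
      have hb0 : (0 : ℝ) ≤ (1 / 4 : ℝ) ^ b := by positivity
      calc (1 / 4 : ℝ) ^ b * M * (kap r * P) ≤ (1 / 4 : ℝ) ^ b * M * 2 :=
            mul_le_mul_of_nonneg_left hPk (by positivity)
        _ ≤ (ε / 12) * (3 * (A * x)) * 2 := by
            refine mul_le_mul_of_nonneg_right ?_ (by norm_num)
            exact mul_le_mul hb.le hM3 hM0.le (by positivity)
        _ = ε / 2 * (A * x) := by ring
    have e1 : kap r * ((1 - (1 / 4 : ℝ) ^ b) * M * P - (Zr r : ℝ) ^ (c * (b + 1)) * E₁)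
        = kap r * P * M - (1 / 4 : ℝ) ^ b * M * (kap r * P)
          - kap r * ((Zr r : ℝ) ^ (c * (b + 1)) * E₁) := by ring
    have e2 : kap r * ((1 + (1 / 4 : ℝ) ^ b) * M * P + (Zr r : ℝ) ^ (c * (b + 1)) * E₁)
        = kap r * P * M + (1 / 4 : ℝ) ^ b * M * (kap r * P)
          + kap r * ((Zr r : ℝ) ^ (c * (b + 1)) * E₁) := by ring
    rw [e1] at k1
    rw [e2] at k2
    rw [abs_le]
    constructor <;> linarith
  · intro z _
    exact div_nonneg (Real.log_natCast_nonneg _) hE₁0.le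
  · intro p z _
    unfold MTA_h; split_ifs <;> norm_num
  · intro p z _
    unfold MTA_h; split_ifs <;> norm_num
  · positivity
  · intro D hD
    have hDp : ∀ p ∈ D, p.Prime := fun p hp => (Nat.mem_primesLE.mp (hD hp)).2
    have k := key D hD
    rw [hSd D hD] at k
    have t1 : ∑ z ∈ S, Real.log (nn z) / E₁ * ∏ p ∈ D, MTA_h p z
        = (∑ z ∈ S, Real.log (nn z) * ∏ p ∈ D, MTA_h p z) / E₁ := by
      rw [Finset.sum_div]
      exact Finset.sum_congr rfl fun z _ => by ring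
    have t2 : ∏ p ∈ D, (MTA_w p / p) = ∏ p ∈ D, gg p :=
      Finset.prod_congr rfl fun p hp => MTA_wd (hDp p hp)
    rw [t1, t2]
    have t3 : (∑ z ∈ S, Real.log (nn z) * ∏ p ∈ D, MTA_h p z) / E₁ - M / E₁ * ∏ p ∈ D, gg p
        = ((∑ z ∈ S, Real.log (nn z) * ∏ p ∈ D, MTA_h p z) - (∏ p ∈ D, gg p) * M) / E₁ := by
      field_simp
    rw [t3, abs_div, abs_of_pos hE₁0, div_le_iff₀ hE₁0]
    refine k.trans ?_
    have t4 : 1 / kap r ≤ ∏ p ∈ D, ((p : ℝ) * gg p) := ((hKPR r).2 D hD).2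
    have t5 : ∏ p ∈ D, MTA_w p = ∏ p ∈ D, ((p : ℝ) * gg p) :=
      Finset.prod_congr rfl fun p hp => by unfold MTA_w; rw [if_pos (hDp p hp)]
    rw [t5]
    have t6 : 1 / L ≤ 1 / kap r := one_div_le_one_div_of_le (by linarith) hkapL
    calc E₁ / L = 1 / L * E₁ := by ring
      _ ≤ _ := mul_le_mul_of_nonneg_right (t6.trans t4) hE₁0.le

end Pool.Agent.FI
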