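import Pool.Agent.helper40.FI.SpecLA

/-!
# Row LQ0: the quadratic form
-/

set_option autoImplicit false

namespace Pool.Agent.FI

open Finset

theorem LQ0_one_le (e x : ℤ) (he : e ≠ 0) : 1 ≤ x ^ 2 + (e - x) ^ 2 := by
  by_contra h
  have h1 : x ^ 2 + (e - x) ^ 2 = 0 := le_antisymm (by omega) (by positivity)
  have h2 : x ^ 2 = 0 := by nlinarith [sq_nonneg x, sq_nonneg (e - x)]
  have h3 : (e - x) ^ 2 = 0 := by nlinarith [sq_nonneg x, sq_nonneg (e - x)]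
  have h4 : x = 0 := pow_eq_zero_iff (by norm_num) |>.1 h2
  have h5 : e - x = 0 := pow_eq_zero_iff (by norm_num) |>.1 h3
  exact he (by omega)

theorem LQ0_cases (e x : ℤ) (he : e = 1 ∨ e = -1) (h : x ^ 2 + (e - x) ^ 2 = 1) : x = 0 ∨ x = e := by
  have h1 : x * (x - e) = 0 := by
    rcases he with he | he <;> subst he <;> nlinarith
  rcases mul_eq_zero.1 h1 with h2 | h2
  · exact Or.inl h2
  · exact Or.inr (by omega)

theorem LQ0 : LQ0_stmt := by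
  intro ι _ s O a e hOs hO he hae
  -- the rest `R`
  have hsum : ∀ f : ι → ℤ, ∑ i ∈ s, f i = ∑ i ∈ s \ O, f i + ∑ i ∈ O, f i := fun f =>
    (Finset.sum_sdiff hOs).symm
  have hO1 : ∑ i ∈ O, a i = (O.card : ℤ) * e := by
    rw [Finset.sum_congr rfl hae, Finset.sum_const, nsmul_eq_mul]
  have hO2 : ∑ i ∈ O, a i ^ 2 = (O.card : ℤ) * e ^ 2 := by
    rw [Finset.sum_congr rfl (fun i hi => by rw [hae i hi] : ∀ i ∈ O, a i ^ 2 = e ^ 2), Finset.sum_const,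
      nsmul_eq_mul]
  have hcard : (s.card : ℤ) = ((s \ O).card : ℤ) + O.card := by
    have := Finset.card_sdiff_add_card_eq_card hOs
    exact_mod_cast this.symm
  have hh : (1 : ℤ) ≤ O.card := by exact_mod_cast hO.card_pos
  have hCS := sq_sum_le_card_mul_sum_sq (s := s \ O) (f := a)
  have hrest : ∑ i ∈ s \ O, (a i ^ 2 + (e - a i) ^ 2 - 1) =
      2 * ∑ i ∈ s \ O, a i ^ 2 - 2 * e * ∑ i ∈ s \ O, a i + ((s \ O).card : ℤ) * (e ^ 2 - 1) := by
    rw [Finset.mul_sum, Finset.mul_sum, ← nsmul_eq_mul, ← Finset.sum_const, ← Finset.sum_sub_distrib,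
      ← Finset.sum_add_distrib]
    exact Finset.sum_congr rfl fun i _ => by ring
  have hnn : ∀ i ∈ s \ O, 0 ≤ a i ^ 2 + (e - a i) ^ 2 - 1 := fun i _ => by
    have := LQ0_one_le e (a i) he
    omega
  have hrest0 : 0 ≤ ∑ i ∈ s \ O, (a i ^ 2 + (e - a i) ^ 2 - 1) := Finset.sum_nonneg hnn
  have he2 : 1 ≤ e ^ 2 := by
    have := LQ0_one_le e 0 he
    simpa using this
  -- the decomposition
  have key : ((s.card : ℤ) + O.card) * ∑ i ∈ s, a i ^ 2 - (∑ i ∈ s, a i) ^ 2 - (s.card : ℤ) * O.card =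
      (((s \ O).card : ℤ) * ∑ i ∈ s \ O, a i ^ 2 - (∑ i ∈ s \ O, a i) ^ 2) +
        (O.card : ℤ) * ((O.card : ℤ) * (e ^ 2 - 1) + ∑ i ∈ s \ O, (a i ^ 2 + (e - a i) ^ 2 - 1)) := by
    rw [hsum (fun i => a i ^ 2), hsum a, hO1, hO2, hrest, hcard]
    ring
  have h1 : 0 ≤ ((s \ O).card : ℤ) * ∑ i ∈ s \ O, a i ^ 2 - (∑ i ∈ s \ O, a i) ^ 2 := by linarith
  have h2 : 0 ≤ (O.card : ℤ) * (e ^ 2 - 1) := mul_nonneg (by omega) (by omega)
  have h3 : 0 ≤ (O.card : ℤ) * ((O.card : ℤ) * (e ^ 2 - 1) + ∑ i ∈ s \ O, (a i ^ 2 + (e - a i) ^ 2 - 1)) :=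
    mul_nonneg (by omega) (by omega)
  refine ⟨by linarith, fun heq => ?_⟩
  have h4 : ((s \ O).card : ℤ) * ∑ i ∈ s \ O, a i ^ 2 - (∑ i ∈ s \ O, a i) ^ 2 = 0 := by linarith
  have h5 : (O.card : ℤ) * ((O.card : ℤ) * (e ^ 2 - 1) + ∑ i ∈ s \ O, (a i ^ 2 + (e - a i) ^ 2 - 1)) = 0 := by
    linarith
  have h6 : (O.card : ℤ) * (e ^ 2 - 1) + ∑ i ∈ s \ O, (a i ^ 2 + (e - a i) ^ 2 - 1) = 0 := by
    rcases mul_eq_zero.1 h5 with h | h
    · omega
    · exact h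
  have h7 : (O.card : ℤ) * (e ^ 2 - 1) = 0 := by linarith
  have h8 : ∑ i ∈ s \ O, (a i ^ 2 + (e - a i) ^ 2 - 1) = 0 := by linarith
  have h9 : e ^ 2 = 1 := by
    rcases mul_eq_zero.1 h7 with h | h
    · omega
    · omega
  have he1 : e = 1 ∨ e = -1 := by
    have h : (e - 1) * (e + 1) = 0 := by linarith [h9, (by ring : (e - 1) * (e + 1) = e ^ 2 - 1)]
    rcases mul_eq_zero.1 h with h | h
    · exact Or.inl (by omega)
    · exact Or.inr (by omega)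
  refine ⟨he1, ?_⟩
  have h10 : ∀ i ∈ s \ O, a i = 0 ∨ a i = e := fun i hi => by
    have := (Finset.sum_eq_zero_iff_of_nonneg hnn).1 h8 i hi
    exact LQ0_cases e (a i) he1 (by omega)
  -- `b i = a i * e`
  have hb1 : ∀ i ∈ s \ O, a i ^ 2 = a i * e := fun i hi => by
    rcases h10 i hi with h | h
    · rw [h]; ring
    · rw [h]; ring
  have hb2 : ∑ i ∈ s \ O, a i ^ 2 = (∑ i ∈ s \ O, a i) * e := by
    rw [Finset.sum_mul]
    exact Finset.sum_congr rfl hb1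
  have h11 : (∑ i ∈ s \ O, a i) ^ 2 = (∑ i ∈ s \ O, a i ^ 2) ^ 2 := by
    rw [hb2, mul_pow, h9, mul_one]
  have h12 : (∑ i ∈ s \ O, a i ^ 2) * (((s \ O).card : ℤ) - ∑ i ∈ s \ O, a i ^ 2) = 0 := by
    rw [h11] at h4
    linarith [h4]
  rcases mul_eq_zero.1 h12 with h | h
  · right
    intro i hi hiO
    have h13 := (Finset.sum_eq_zero_iff_of_nonneg (fun j _ => sq_nonneg (a j))).1 h i (Finset.mem_sdiff.2 ⟨hi, hiO⟩)
    exact pow_eq_zero_iff (by norm_num) |>.1 h13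
  · left
    intro i hi
    by_cases hiO : i ∈ O
    · exact hae i hiO
    · have h14 : ∑ j ∈ s \ O, (1 - a j ^ 2) = 0 := by
        rw [Finset.sum_sub_distrib, Finset.sum_const, nsmul_eq_mul, mul_one]
        exact h
      have h15 : ∀ j ∈ s \ O, 0 ≤ 1 - a j ^ 2 := fun j hj => by
        rcases h10 j hj with h | h
        · rw [h]; norm_num
        · rw [h, h9]; norm_num
      have h16 := (Finset.sum_eq_zero_iff_of_nonneg h15).1 h14 i (Finset.mem_sdiff.2 ⟨hi, hiO⟩)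
      rcases h10 i (Finset.mem_sdiff.2 ⟨hi, hiO⟩) with h | h
      · rw [h] at h16
        norm_num at h16
      · exact h

end Pool.Agent.FI
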